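import Pool.Agent.Q263.IV.Def
import Pool.Agent.Y515.IV.Retr

/-!
# IVP-SYM: trajectories that come back along the reversed image of the first line are symmetric
-/

set_option autoImplicit false

open Set

namespace Pool.Agent.Q65.IV

open Pool.Agent.Y322.IV Pool.Agent.Y515.IV Q263.IV

section
variable {E : Type} [NormedAddCommGroup E] [InnerProductSpace ℝ E] [CompleteSpace E]

theorem grad_equi (h : E → ℝ) (γ : E ≃ₗᵢ[ℝ] E) (hd : Differentiable ℝ h) (hγ : ∀ x, h (γ x) = h x)
    (x : E) : gradient h (γ x) = γ (gradient h x) := by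
  have h1 : fderiv ℝ h x = (fderiv ℝ h (γ x)).comp (γ.toContinuousLinearEquiv : E →L[ℝ] E) := by
    have e1 : h = h ∘ γ := by
      funext y
      exact (hγ y).symm
    have e2 : HasFDerivAt (h ∘ γ) ((fderiv ℝ h (γ x)).comp
        (γ.toContinuousLinearEquiv : E →L[ℝ] E)) x :=
      HasFDerivAt.comp x (hd (γ x)).hasFDerivAt
        (γ.toContinuousLinearEquiv.hasFDerivAt (x := x))
    rw [← e1] at e2
    exact e2.fderiv
  refine ext_inner_right ℝ (fun v => ?_)
  obtain ⟨w, rfl⟩ := γ.surjective v
  rw [LinearIsometryEquiv.inner_map_map]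
  have e3 : ∀ (y z : E), inner ℝ (gradient h y) z = fderiv ℝ h y z := by
    intro y z
    unfold gradient
    rw [InnerProductSpace.toDual_symm_apply]
  rw [e3, e3, h1]
  rfl

theorem R_equi (γ : E ≃ₗᵢ[ℝ] E) (G v : E) : R (γ G) (γ v) = γ (R G v) := by
  unfold R
  rw [LinearIsometryEquiv.inner_map_map, LinearIsometryEquiv.norm_map, map_sub, map_smul]

end

theorem sym : S_SYM := by
  intro E _ _ _ h γ n p u hd hγ hn hT hp hu
  have : CompleteSpace E := FiniteDimensional.complete ℝ E
  obtain ⟨hA, hB⟩ := hT
  have hG : ∀ k ≤ n, gradient h (p k) ≠ 0 := by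
    intro k hk h0
    have := (hA k hk).2.2
    rw [h0, inner_zero_right] at this
    exact lt_irrefl _ this
  have hR : ∀ k < n, u (k + 1) = R (gradient h (p (k + 1))) (u k) := fun k hk => (hB k hk).2
  have pstep : ∀ j, j < n → p (n - j) = γ (p j) → u (n - 1 - j) = -γ (u j) →
      p (n - (j + 1)) = γ (p (j + 1)) := by
    intro j hj ih1 ih2
    obtain ⟨m', hm'⟩ : ∃ m', n = m' + j + 1 := ⟨n - j - 1, by omega⟩
    have e1 : n - j = m' + 1 := by omega
    have e2 : n - 1 - j = m' := by omega
    have e3 : n - (j + 1) = m' := by omega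
    rw [e1] at ih1
    rw [e2] at ih2
    rw [e3]
    obtain ⟨t, ht, hpt, hst⟩ := (hB m' (by omega)).1
    obtain ⟨t', ht', hpt', hst'⟩ := (hB j (by omega)).1
    rw [ih1, ih2] at hpt
    rw [ih2] at hst
    have hpm : p m' = γ (p j + t • u j) := by
      have : p m' = γ (p j) + t • γ (u j) := by
        rw [hpt]; module
      rw [this, map_add, map_smul]
    have hb0 : h (p j + t • u j) = 0 := by
      rw [← hγ, ← hpm]
      exact (hA _ (by omega)).1
    have hst2 : ∀ s ∈ Ioo (0 : ℝ) t, h (p j + s • u j) < 0 := by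
      intro s hs
      have h1 := hst (t - s) ⟨by linarith [hs.2], by linarith [hs.1]⟩
      have h2 : p m' + (t - s) • -γ (u j) = γ (p j + s • u j) := by
        rw [hpm, map_add, map_add, map_smul, map_smul]; module
      rw [h2, hγ] at h1
      exact h1
    have hpeq : p j + t • u j = p (j + 1) :=
      chord ht ht' rfl hpt' hb0 (hA _ (by omega)).1 hst2 hst'
    rw [hpm, hpeq]
  have key : ∀ j, j < n → p (n - j) = γ (p j) ∧ u (n - 1 - j) = -γ (u j) := by
    intro j
    induction j with
    | zero => intro _; exact ⟨by simpa using hp, by simpa using hu⟩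
    | succ j ih =>
      intro hj
      obtain ⟨ih1, ih2⟩ := ih (by omega)
      have hp1 := pstep j (by omega) ih1 ih2
      refine ⟨hp1, ?_⟩
      obtain ⟨m', hm'⟩ : ∃ m', n = m' + j + 2 := ⟨n - j - 2, by omega⟩
      have e2 : n - 1 - j = m' + 1 := by omega
      have e3 : n - (j + 1) = m' + 1 := by omega
      have e4 : n - 1 - (j + 1) = m' := by omega
      rw [e2] at ih2
      rw [e3] at hp1
      rw [e4]
      have h1 := hR m' (by omega)
      have h2 := hR j (by omega)
      have hg := hG (m' + 1) (by omega)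
      have h3 : u m' = R (gradient h (p (m' + 1))) (u (m' + 1)) := by
        rw [h1, R_invol hg]
      rw [h3, ih2, R_neg, hp1, grad_equi h γ hd hγ, R_equi, ← h2]
  have keyp : ∀ j, j ≤ n → p (n - j) = γ (p j) := by
    intro j hj
    rcases Nat.eq_zero_or_pos j with h0 | h0
    · subst h0
      simpa using hp
    · obtain ⟨i, rfl⟩ : ∃ i, j = i + 1 := ⟨j - 1, by omega⟩
      exact pstep i (by omega) (key i (by omega)).1 (key i (by omega)).2
  rcases Nat.even_or_odd' n with ⟨r, hr | hr⟩
  · left
    refine ⟨r, by omega, hr, ?_, ?_⟩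
    · have h1 := keyp r (by omega)
      have e1 : n - r = r := by omega
      rw [e1] at h1
      exact h1.symm
    · have h1 := (key (r - 1) (by omega)).2
      have e1 : n - 1 - (r - 1) = r := by omega
      rwa [e1] at h1
  · right
    refine ⟨r, hr, ?_, ?_, ?_⟩
    · have h1 := keyp r (by omega)
      have e1 : n - r = r + 1 := by omega
      rwa [e1] at h1
    · have h1 := keyp (r + 1) (by omega)
      have e1 : n - (r + 1) = r := by omega
      rw [e1] at h1
      exact h1.symm
    · have h1 := (key r (by omega)).2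
      have e1 : n - 1 - r = r := by omega
      rw [e1] at h1
      rw [h1, neg_neg]
      rw [← h1]

end Pool.Agent.Q65.IV
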