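import Pool.Agent.Q263.IV.Def
import Pool.Agent.Y322.IV.Cover
import Pool.Agent.Q65.IV.Sym

/-!
# IVP-EVEN: boundary points fixed by an isometry carry a null set of phase points
-/

set_option autoImplicit false

open Set MeasureTheory Function Topology
open scoped NNReal ENNReal

namespace Pool.Agent.Q65.IV

open Pool.Agent.Y322.IV Q263.IV

section
variable {E : Type} [NormedAddCommGroup E] [InnerProductSpace ℝ E] [FiniteDimensional ℝ E]

/-- the fixed space -/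
def Fx (γ : E ≃ₗᵢ[ℝ] E) : Submodule ℝ E where
  carrier := {x | γ x = x}
  add_mem' := by
    intro a b ha hb
    have h1 : γ a = a := ha
    have h2 : γ b = b := hb
    show γ (a + b) = a + b
    rw [map_add, h1, h2]
  zero_mem' := map_zero γ
  smul_mem' := by
    intro c a ha
    have h1 : γ a = a := ha
    show γ (c • a) = c • a
    rw [map_smul, h1]

omit [FiniteDimensional ℝ E] in
theorem mem_Fx (γ : E ≃ₗᵢ[ℝ] E) (x : E) : x ∈ Fx γ ↔ γ x = x := Iff.rfl

theorem finrank_Fx (γ : E ≃ₗᵢ[ℝ] E) (hγ : γ ≠ 1) :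
    Module.finrank ℝ (Fx γ) < Module.finrank ℝ E := by
  apply Submodule.finrank_lt
  intro htop
  apply hγ
  ext x
  have : x ∈ Fx γ := by rw [htop]; trivial
  exact this

/-- the regular part of the zero set in `V`, in the direction `b`, with unit velocities -/
def Zb (h : E → ℝ) (V : Submodule ℝ E) (b : E) : Set (E × E) :=
  {z | z.1 ∈ V ∧ h z.1 = 0 ∧ inner ℝ b (gradient h z.1) ≠ 0 ∧ ‖z.2‖ = 1}

/-- the base of the projection -/
def Ab (V : Submodule ℝ E) (b : E) : Set (E × E) :=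
  {z | z.1 ∈ V ⊓ (ℝ ∙ b)ᗮ ∧ ‖z.2‖ = 1}

variable [MeasurableSpace E] [BorelSpace E]

theorem null_Ab (V : Submodule ℝ E) (b : E) (hb : b ∈ V) (hb0 : b ≠ 0) {d : ℕ} (hd : 2 ≤ d)
    (hE : Module.finrank ℝ E = d) (hV : Module.finrank ℝ V < d) :
    μH[((2 * d - 2 : ℕ) : ℝ)] (Ab V b) = 0 := by
  have hs : (0 : ℝ) ≤ ((2 * d - 2 : ℕ) : ℝ) := Nat.cast_nonneg _
  set V' : Submodule ℝ E := V ⊓ (ℝ ∙ b)ᗮ with hV'
  have hcov : Ab V b ⊆ ⋃ i, (fun x : V' × (ℝ ∙ (dirs E i))ᗮ =>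
      (((x.1 : E), (‖dirs E i + (x.2 : E)‖⁻¹ : ℝ) • (dirs E i + (x.2 : E))) : E × E)) '' (univ ∩ univ) := by
    rintro ⟨y, w⟩ ⟨hy, hw⟩
    simp only at hy hw
    have hw0 : w ≠ 0 := by
      intro h0
      rw [h0, norm_zero] at hw
      exact zero_ne_one hw
    obtain ⟨i, hi⟩ := exists_dir hw0
    have he := dirs_norm i
    set e := dirs E i with hee
    set t : ℝ := inner ℝ e w with ht
    have hmem : t⁻¹ • w - e ∈ (ℝ ∙ e)ᗮ := by
      rw [Submodule.mem_orthogonal_singleton_iff_inner_right, inner_sub_right, inner_smul_right,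
        real_inner_self_eq_norm_sq, he, ← ht, inv_mul_cancel₀ hi.ne']
      norm_num
    refine mem_iUnion.2 ⟨i, (⟨y, hy⟩, ⟨t⁻¹ • w - e, hmem⟩), ⟨mem_univ _, mem_univ _⟩, ?_⟩
    have e1 : dirs E i + (t⁻¹ • w - e) = t⁻¹ • w := by rw [← hee]; abel
    have e2 : ‖t⁻¹ • w‖ = t⁻¹ := by
      rw [norm_smul, hw, mul_one, Real.norm_eq_abs, abs_of_pos (inv_pos.2 hi)]
    simp only [e1, e2, inv_inv, smul_smul]
    rw [mul_inv_cancel₀ hi.ne', one_smul]
  refine measure_mono_null hcov (measure_iUnion_null fun i => ?_)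
  have he := dirs_norm (E := E) i
  have he0 : dirs E i ≠ 0 := by
    intro h0
    rw [h0, norm_zero] at he
    exact zero_ne_one he
  refine null_c1 hs _ univ (fun x _ => ?_) _ ?_
  · have hne : dirs E i + (x.2 : E) ≠ 0 := by
      intro h0
      have h1 : inner ℝ (dirs E i) (dirs E i + (x.2 : E)) = 0 := by rw [h0, inner_zero_right]
      have h2 : inner ℝ (dirs E i) (x.2 : E) = 0 :=
        Submodule.mem_orthogonal_singleton_iff_inner_right.1 x.2.2
      rw [inner_add_right, h2, real_inner_self_eq_norm_sq, he] at h1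
      norm_num at h1
    have c1 : ContDiffAt ℝ 1 (fun x : V' × (ℝ ∙ (dirs E i))ᗮ => (x.1 : E)) x :=
      (V'.subtypeL.contDiff.comp contDiff_fst).contDiffAt
    have c2 : ContDiffAt ℝ 1 (fun x : V' × (ℝ ∙ (dirs E i))ᗮ => dirs E i + (x.2 : E)) x :=
      (contDiff_const.add ((ℝ ∙ (dirs E i))ᗮ.subtypeL.contDiff.comp contDiff_snd)).contDiffAt
    exact c1.prodMk (((c2.norm ℝ hne).inv (norm_ne_zero_iff.2 hne)).smul c2)
  · apply null_of_dim
    have h1 : Module.finrank ℝ (ℝ ∙ (dirs E i))ᗮ + 1 = d := by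
      have h1 := Submodule.finrank_add_finrank_orthogonal (K := (ℝ ∙ (dirs E i)))
      rw [finrank_span_singleton he0] at h1
      omega
    have h2 : Module.finrank ℝ V' < Module.finrank ℝ V := by
      apply Submodule.finrank_lt_finrank_of_lt
      rw [hV']
      refine lt_of_le_of_ne inf_le_left ?_
      intro heq
      have hbm : b ∈ V ⊓ (ℝ ∙ b)ᗮ := by rw [heq]; exact hb
      have h3 := Submodule.mem_orthogonal_singleton_iff_inner_right.1 hbm.2
      exact hb0 (inner_self_eq_zero.1 h3)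
    have h3 : Module.finrank ℝ (V' × (ℝ ∙ (dirs E i))ᗮ) < 2 * d - 2 := by
      rw [Module.finrank_prod]
      omega
    exact_mod_cast h3

theorem null_Zb {h : E → ℝ} (hh : ContDiff ℝ 2 h) (V : Submodule ℝ E) (b : E) (hb : b ∈ V)
    (hb1 : ‖b‖ = 1) {s : ℝ} (hs : 0 ≤ s) (hA : μH[s] (Ab V b) = 0) : μH[s] (Zb h V b) = 0 := by
  have hR := null_rel hs {x : (E × E) × (E × E) | x.2 ∈ Zb h V b ∧
    x.1 = (x.2.1 - (inner ℝ b x.2.1 : ℝ) • b, x.2.2)} (fun z hz => ?_) (Ab V b) hA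
  · refine measure_mono_null ?_ hR
    rintro ⟨q, w⟩ hz
    refine ⟨(q - (inner ℝ b q : ℝ) • b, w), ⟨⟨V.sub_mem hz.1 (V.smul_mem _ hb), ?_⟩, hz.2.2.2⟩, hz, rfl⟩
    show q - (inner ℝ b q : ℝ) • b ∈ (ℝ ∙ b)ᗮ
    rw [Submodule.mem_orthogonal_singleton_iff_inner_right, inner_sub_right, inner_smul_right,
      real_inner_self_eq_norm_sq, hb1]
    simp
  · obtain ⟨⟨y0, w0⟩, ⟨q0, v0⟩⟩ := z
    obtain ⟨hz0, -⟩ := hz
    have hstrict : HasStrictFDerivAt h (fderiv ℝ h q0) q0 :=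
      (hh.contDiffAt).hasStrictFDerivAt two_ne_zero
    set L := fderiv ℝ h q0 with hL
    set c : ℝ := L b with hc
    have hc0 : c ≠ 0 := by
      rw [hc, hL, fderiv_eq_inner]
      exact hz0.2.2.1
    have hcp : 0 < |c| := abs_pos.2 hc0
    have hev := (Asymptotics.isLittleO_iff.1 hstrict.isLittleO) (show 0 < |c| / 2 by positivity)
    obtain ⟨W, hW, hWs⟩ := Filter.Eventually.exists_mem hev
    rw [nhds_prod_eq] at hW
    obtain ⟨W1, hW1, hW1s⟩ := Filter.mem_prod_self_iff.1 hW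
    have hcont : Filter.Tendsto (fun z : (E × E) × (E × E) => z.2.1)
        (𝓝 ((y0, w0), (q0, v0))) (𝓝 q0) := by
      have : Continuous (fun z : (E × E) × (E × E) => z.2.1) := by fun_prop
      exact this.tendsto ((y0, w0), (q0, v0))
    refine ⟨_, hcont hW1, Real.toNNReal (1 + (2 / |c|) * (‖L‖ + |c| / 2)), ?_⟩
    have hK0 : 0 ≤ (2 / |c|) * (‖L‖ + |c| / 2) := by positivity
    rintro ⟨⟨y1, w1⟩, ⟨q1, v1⟩⟩ ⟨⟨hz1, hy1⟩, hU1⟩ ⟨⟨y2, w2⟩, ⟨q2, v2⟩⟩ ⟨⟨hz2, hy2⟩, hU2⟩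
    simp only at hy1 hy2
    simp only [mem_preimage] at hU1 hU2
    have hm := hWs _ (hW1s (mk_mem_prod hU1 hU2))
    rw [Prod.mk.injEq] at hy1 hy2
    obtain ⟨hy1, hw1⟩ := hy1
    obtain ⟨hy2, hw2⟩ := hy2
    simp only at hm
    have hh1 : h q1 = 0 := hz1.2.1
    have hh2 : h q2 = 0 := hz2.2.1
    rw [hh1, hh2, sub_self, zero_sub, norm_neg, Real.norm_eq_abs] at hm
    set t : ℝ := inner ℝ b q1 - inner ℝ b q2 with ht
    have hq : q1 - q2 = (y1 - y2) + t • b := by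
      rw [hy1, hy2, ht]
      module
    have hLq : L (q1 - q2) = L (y1 - y2) + t * c := by
      rw [hq, map_add, map_smul, smul_eq_mul]
    have hqn : ‖q1 - q2‖ ≤ ‖y1 - y2‖ + |t| := by
      rw [hq]
      refine (norm_add_le _ _).trans ?_
      rw [norm_smul, hb1, mul_one, Real.norm_eq_abs]
    have h1 : |t| * |c| ≤ ‖L‖ * ‖y1 - y2‖ + |c| / 2 * (‖y1 - y2‖ + |t|) := by
      rw [← abs_mul]
      have e1 : t * c = L (q1 - q2) - L (y1 - y2) := by rw [hLq]; ring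
      rw [e1]
      calc |L (q1 - q2) - L (y1 - y2)| ≤ |L (q1 - q2)| + |L (y1 - y2)| := abs_sub _ _
        _ ≤ |c| / 2 * (‖y1 - y2‖ + |t|) + ‖L‖ * ‖y1 - y2‖ := by
          apply add_le_add
          · exact hm.trans (mul_le_mul_of_nonneg_left hqn (by positivity))
          · exact L.le_opNorm _
        _ = _ := by ring
    have h2 : |t| ≤ (2 / |c|) * (‖L‖ + |c| / 2) * ‖y1 - y2‖ := by
      have h3 : |t| * (|c| / 2) ≤ (‖L‖ + |c| / 2) * ‖y1 - y2‖ := by nlinarith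
      have h4 : |t| = (2 / |c|) * (|t| * (|c| / 2)) := by field_simp
      rw [h4, mul_assoc]
      exact mul_le_mul_of_nonneg_left h3 (by positivity)
    rw [Real.coe_toNNReal _ (by positivity)]
    rw [Prod.dist_eq, Prod.dist_eq, dist_eq_norm, dist_eq_norm, dist_eq_norm, dist_eq_norm]
    have hM1 : ‖y1 - y2‖ ≤ max ‖y1 - y2‖ ‖w1 - w2‖ := le_max_left _ _
    have hM2 : ‖w1 - w2‖ ≤ max ‖y1 - y2‖ ‖w1 - w2‖ := le_max_right _ _
    have hM0 : 0 ≤ max ‖y1 - y2‖ ‖w1 - w2‖ := (norm_nonneg _).trans hM1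
    apply max_le
    · calc ‖q1 - q2‖ ≤ ‖y1 - y2‖ + |t| := hqn
        _ ≤ ‖y1 - y2‖ + (2 / |c|) * (‖L‖ + |c| / 2) * ‖y1 - y2‖ := by linarith
        _ = (1 + (2 / |c|) * (‖L‖ + |c| / 2)) * ‖y1 - y2‖ := by ring
        _ ≤ _ := mul_le_mul_of_nonneg_left hM1 (by positivity)
    · have : ‖v1 - v2‖ = ‖w1 - w2‖ := by rw [hw1, hw2]
      rw [this]
      nlinarith

end

theorem even : S_EVEN := by
  intro E _ _ _ _ _ d hd hE h γ hh hγ hne
  have : CompleteSpace E := FiniteDimensional.complete ℝ E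
  have hs : (0 : ℝ) ≤ ((2 * d - 2 : ℕ) : ℝ) := Nat.cast_nonneg _
  set V := Fx γ with hV
  set b := stdOrthonormalBasis ℝ V with hb
  have hcov : {z : E × E | γ z.1 = z.1 ∧ h z.1 = 0 ∧ ‖z.2‖ = 1 ∧
      inner ℝ z.2 (gradient h z.1) < 0} ⊆ ⋃ i, Zb h V (b i : E) := by
    rintro ⟨q, w⟩ ⟨hq, hh0, hw, hin⟩
    simp only at hq hh0 hw hin
    have hg0 : gradient h q ≠ 0 := by
      intro h0
      rw [h0, inner_zero_right] at hin
      exact lt_irrefl _ hin
    have hgV : gradient h q ∈ V := by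
      rw [hV, mem_Fx]
      have := grad_equi h γ (hh.differentiable two_ne_zero) hγ q
      rw [hq] at this
      exact this.symm
    have hex : ∃ i, inner ℝ (b i : E) (gradient h q) ≠ 0 := by
      by_contra hcon
      push Not at hcon
      apply hg0
      have h1 : (⟨gradient h q, hgV⟩ : V) = 0 := by
        rw [← b.sum_repr' ⟨gradient h q, hgV⟩]
        refine Finset.sum_eq_zero fun i _ => ?_
        have : inner ℝ (b i) (⟨gradient h q, hgV⟩ : V) = 0 := hcon i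
        rw [this, zero_smul]
      exact congrArg Subtype.val h1
    obtain ⟨i, hi⟩ := hex
    exact mem_iUnion.2 ⟨i, hq, hh0, hi, hw⟩
  refine measure_mono_null hcov (measure_iUnion_null fun i => ?_)
  have hbn : ‖(b i : E)‖ = 1 := b.norm_eq_one i
  have hb0 : (b i : E) ≠ 0 := by
    intro h0
    rw [h0, norm_zero] at hbn
    exact zero_ne_one hbn
  refine null_Zb hh V (b i : E) (b i).2 hbn hs (null_Ab V (b i : E) (b i).2 hb0 hd hE ?_)
  have := finrank_Fx γ hne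
  rw [hE] at this
  exact this

end Pool.Agent.Q65.IV
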